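import Mathlib
import Pool.Agent.V11311.ER.F

set_option autoImplicit false

/-!
The largest climb along the trajectory of a typical integer.
-/

namespace Pool.Agent.Results.MP_0a5adf_nt.LargestClimb

open Filter Topology

/-- the `3x+1` function -/
def T (n : ℕ) : ℕ := if n % 2 = 0 then n / 2 else (3 * n + 1) / 2

/-- the positive integers with the property `P` have the natural density `δ` -/
def HasDensity (P : ℕ → Prop) (δ : ℝ) : Prop :=
  Tendsto (fun N : ℕ => ({n : ℕ | 1 ≤ n ∧ n ≤ N ∧ P n}.ncard : ℝ) / N) atTop (𝓝 δ)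

/-- before the first term `≤ n ^ κ`, this one included, the trajectory of `n` never climbs by a factor
above `u` -/
def ClimbsAtMost (κ u : ℝ) (n : ℕ) : Prop :=
  ∀ i j, i ≤ j → (∀ s, s < j → (n : ℝ) ^ κ < T^[s] n) → (T^[j] n : ℝ) ≤ u * T^[i] n

/-- while its terms are above `n ^ κ`, the trajectory of `n` climbs by a factor above `u` -/
def ClimbsMore (κ u : ℝ) (n : ℕ) : Prop :=
  ∃ i j, i ≤ j ∧ (∀ s, s ≤ j → (n : ℝ) ^ κ < T^[s] n) ∧ u * T^[i] n < (T^[j] n : ℝ)

open Pool.Agent.V11311.RC Pool.Agent.V11311.FP Pool.Agent.V11311.ER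

theorem conv {P : ℕ → Prop} {δ : ℝ} (h : HasD P δ) : HasDensity P δ := by
  classical
  unfold HasDensity
  unfold HasD at h
  refine h.congr fun N => ?_
  congr 1
  unfold cN
  rw [← Set.ncard_coe_finset]
  congr 2
  ext n
  rw [Finset.mem_coe, Finset.mem_filter, Finset.mem_Icc]
  constructor
  · rintro ⟨⟨h1, h2⟩, h3⟩; exact ⟨h1, h2, h3⟩
  · rintro ⟨h1, h2, h3⟩; exact ⟨⟨h1, h2⟩, h3⟩

/-- **the largest climb is `(log n) ^ (1 + o(1))`** -/
theorem result (κ : ℝ) (hκ : 0 < κ) (hκ1 : κ < 1) (ε : ℝ) (hε : 0 < ε) (hε1 : ε < 1) :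
    HasDensity (fun n => ClimbsAtMost κ (Real.log n ^ (1 + ε)) n ∧ ClimbsMore κ (Real.log n ^ (1 - ε)) n) 1 :=
  conv (climb_law hε hε1 hκ hκ1)

end Pool.Agent.Results.MP_0a5adf_nt.LargestClimb
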