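import Pool.Agent.H828R3.Exc.UpR
import Pool.Agent.V11243.PD.Base

/-!
# Maximum excursions in residue classes modulo powers of an arbitrary prime

A positive integer `n` is controlled (with the parameters `ε`, `η > 0`) if its `3x+1` trajectory reaches a value
`≤ n ^ η` and all its terms up to that moment are `≤ n ^ (1 + ε)`; then the maximum excursion `t(n)` is
`≤ n ^ (1 + ε)` or it is the maximum excursion of a term `≤ n ^ η` of the trajectory.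

1. Let `p` be a prime, `σ > 0` and `s = 1 - min ε (η / 21)`. For all `α ∈ ℤ_p` outside of a set of Hausdorff dimension
at most `s / σ` and all large `T`, EVERY positive `n ≤ T` with `|n - α|_p ≤ T ^ (-σ)` is controlled. For `s < σ < 1` these
`n` are all members, up to `T`, of the progression `α` modulo `p ^ j`, `p ^ j` about `T ^ σ`.

2. For every map `φ` of `ℕ` to a metric space and `σ > 0`, for all `z` outside of a set of Hausdorff dimension at most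
`s / σ`, only finitely many positive integers `n` with `dist (φ n) z ≤ n ^ (-σ)` are not controlled.

3. For controlled `n`: if `t(m) ≤ A m ^ 2` for all `m ≤ n ^ η`, then `t(n) ≤ max (n ^ (1 + ε)) (A n ^ (2 η))`.
-/

set_option autoImplicit false

open MeasureTheory Filter

namespace Pool.Agent.Results.MP_0a5adf_nt.PadicClasses

/-- the accelerated `3x+1` map -/
def T (n : ℕ) : ℕ := if n % 2 = 0 then n / 2 else (3 * n + 1) / 2

/-- the trajectory of `n` reaches a value `≤ n ^ η` and stays `≤ n ^ (1 + ε)` until then -/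
def Controlled (ε η : ℝ) (n : ℕ) : Prop :=
  ∃ m : ℕ, ((T^[m] n : ℕ) : ℝ) ≤ (n : ℝ) ^ η ∧ ∀ j ≤ m, ((T^[j] n : ℕ) : ℝ) ≤ (n : ℝ) ^ (1 + ε)

theorem T_eq : T = Pool.Agent.Helper894.Collatz.T := rfl

/-- an upper part -/
theorem piece {ε η : ℝ} (hε : 0 < ε) (hη : 0 < η) {e : ℝ} (he : 0 < e) :
    ∃ C : ℝ, 0 ≤ C ∧ ∀ X : ℕ, 1 ≤ X →
      ({n : ℕ | ¬ Controlled ε η n ∧ X < 2 * n ∧ n ≤ X}.ncard : ℝ) ≤
        C * (X : ℝ) ^ (1 - min ε (η / 21) + e) := by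
  set s : ℝ := 1 - min ε (η / 21) with hs
  obtain ⟨X₀, hX₀⟩ : ∃ X₀ : ℕ, ∀ X : ℕ, X₀ ≤ X → (2 : ℝ) ^ (1 + ε) ≤ (X : ℝ) ^ ε := by
    have h1 := (tendsto_rpow_atTop hε).comp tendsto_natCast_atTop_atTop
    obtain ⟨X₀, h2⟩ := eventually_atTop.1 (h1.eventually_ge_atTop ((2 : ℝ) ^ (1 + ε)))
    exact ⟨X₀, fun X hX => h2 X hX⟩
  set L : ℝ := (5 / e) ^ 5 with hL
  have hL0 : 0 < L := by positivity
  set X₁ : ℕ := max X₀ 2 with hX₁
  refine ⟨140000 * L * (2 ^ (η / 21) + 2 ^ (1 + ε)) + X₁ * (X₁ : ℝ) ^ |s + e|, by positivity, fun X hX => ?_⟩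
  have hXR : (1 : ℝ) ≤ X := by exact_mod_cast hX
  have hX0 : (0 : ℝ) < X := by linarith
  have hfin : {n : ℕ | ¬ Controlled ε η n ∧ X < 2 * n ∧ n ≤ X}.Finite :=
    (Set.finite_Iic X).subset fun t ht => ht.2.2
  by_cases hbig : X₁ ≤ X
  · have hX2 : (2 : ℝ) ≤ X := by exact_mod_cast (le_max_right _ _).trans hbig
    have hh := hX₀ X ((le_max_left _ _).trans hbig)
    have hV : (X : ℝ) ≤ ((X : ℝ) / 2) ^ (1 + ε) := by
      rw [Real.div_rpow hX0.le (by norm_num), le_div_iff₀ (by positivity), Real.rpow_add hX0, Real.rpow_one]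
      exact mul_le_mul_of_nonneg_left hh hX0.le
    have hy : 1 ≤ ((X : ℝ) / 2) ^ η := Real.one_le_rpow (by linarith) hη.le
    have h := Pool.Agent.H828R3.Exc.upper_real hX2 hy hV
    rw [← T_eq] at h
    have hsub : {n : ℕ | ¬ Controlled ε η n ∧ X < 2 * n ∧ n ≤ X} ⊆
        {n : ℕ | 1 ≤ n ∧ (n : ℝ) ≤ X ∧ ¬ ∃ m, ((T^[m] n : ℕ) : ℝ) ≤ ((X : ℝ) / 2) ^ η ∧
          ∀ j ≤ m, ((T^[j] n : ℕ) : ℝ) ≤ ((X : ℝ) / 2) ^ (1 + ε)} := by
      rintro n ⟨h1, h2, h3⟩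
      refine ⟨by omega, by exact_mod_cast h3, ?_⟩
      rintro ⟨m, g1, g2⟩
      have hn : (X : ℝ) / 2 ≤ n := by
        have : (X : ℝ) < 2 * n := by exact_mod_cast h2
        linarith
      exact h1 ⟨m, g1.trans (Real.rpow_le_rpow (by positivity) hn hη.le),
        fun j hj => (g2 j hj).trans (Real.rpow_le_rpow (by positivity) hn (by linarith))⟩
    have hfin2 : {n : ℕ | 1 ≤ n ∧ (n : ℝ) ≤ X ∧ ¬ ∃ m, ((T^[m] n : ℕ) : ℝ) ≤ ((X : ℝ) / 2) ^ η ∧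
          ∀ j ≤ m, ((T^[j] n : ℕ) : ℝ) ≤ ((X : ℝ) / 2) ^ (1 + ε)}.Finite :=
      (Set.finite_Iic X).subset fun t ht => by exact_mod_cast ht.2.1
    have h1 := (Nat.cast_le.2 (Set.ncard_le_ncard hsub hfin2)).trans h
    refine h1.trans ?_
    -- the powers
    have hlog : Real.log X ^ 5 ≤ L * (X : ℝ) ^ e := by
      have g1 : Real.log X ≤ (X : ℝ) ^ (e / 5) / (e / 5) := Real.log_le_rpow_div hX0.le (by positivity)
      have g0 : 0 ≤ Real.log X := Real.log_nonneg hXR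
      calc Real.log X ^ 5 ≤ ((X : ℝ) ^ (e / 5) / (e / 5)) ^ 5 := pow_le_pow_left₀ g0 g1 5
        _ = ((X : ℝ) ^ (e / 5)) ^ 5 * (5 / e) ^ 5 := by
            rw [← mul_pow]
            congr 1
            field_simp
        _ = L * (X : ℝ) ^ e := by
            rw [← Real.rpow_natCast, ← Real.rpow_mul hX0.le, hL]
            rw [show e / 5 * ((5 : ℕ) : ℝ) = e by push_cast; field_simp]
            ring
    have hA : (X : ℝ) * (((X : ℝ) / 2) ^ η) ^ (-(1 / 21) : ℝ) ≤ 2 ^ (η / 21) * (X : ℝ) ^ s := by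
      rw [← Real.rpow_mul (by positivity), Real.div_rpow hX0.le (by norm_num)]
      rw [show η * -(1 / 21) = -(η / 21) by ring, Real.rpow_neg (by norm_num : (0 : ℝ) ≤ 2), div_inv_eq_mul]
      have g1 : (X : ℝ) * (X : ℝ) ^ (-(η / 21)) ≤ (X : ℝ) ^ s := by
        calc (X : ℝ) * (X : ℝ) ^ (-(η / 21)) = (X : ℝ) ^ (1 : ℝ) * (X : ℝ) ^ (-(η / 21)) := by
              rw [Real.rpow_one]
          _ = (X : ℝ) ^ (1 + -(η / 21)) := (Real.rpow_add hX0 _ _).symm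
          _ ≤ (X : ℝ) ^ s :=
              Real.rpow_le_rpow_of_exponent_le hXR (by rw [hs]; linarith [min_le_right ε (η / 21)])
      calc (X : ℝ) * ((X : ℝ) ^ (-(η / 21)) * 2 ^ (η / 21)) =
            2 ^ (η / 21) * (X * (X : ℝ) ^ (-(η / 21))) := by ring
        _ ≤ _ := mul_le_mul_of_nonneg_left g1 (by positivity)
    have hB : (X : ℝ) ^ 2 / ((X : ℝ) / 2) ^ (1 + ε) ≤ 2 ^ (1 + ε) * (X : ℝ) ^ s := by
      rw [Real.div_rpow hX0.le (by norm_num), div_div_eq_mul_div]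
      have g1 : (X : ℝ) ^ 2 / (X : ℝ) ^ (1 + ε) ≤ (X : ℝ) ^ s := by
        rw [← Real.rpow_natCast, ← Real.rpow_sub hX0]
        exact Real.rpow_le_rpow_of_exponent_le hXR (by
          rw [hs]; push_cast; linarith [min_le_left ε (η / 21)])
      calc (X : ℝ) ^ 2 * 2 ^ (1 + ε) / (X : ℝ) ^ (1 + ε) = 2 ^ (1 + ε) * ((X : ℝ) ^ 2 / (X : ℝ) ^ (1 + ε)) := by
            ring
        _ ≤ _ := mul_le_mul_of_nonneg_left g1 (by positivity)
    have hsum : (X : ℝ) * (((X : ℝ) / 2) ^ η) ^ (-(1 / 21) : ℝ) + (X : ℝ) ^ 2 / ((X : ℝ) / 2) ^ (1 + ε) ≤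
        (2 ^ (η / 21) + 2 ^ (1 + ε)) * (X : ℝ) ^ s := by
      rw [add_mul]
      exact add_le_add hA hB
    have hsum0 : 0 ≤ (X : ℝ) * (((X : ℝ) / 2) ^ η) ^ (-(1 / 21) : ℝ) +
        (X : ℝ) ^ 2 / ((X : ℝ) / 2) ^ (1 + ε) := by positivity
    calc 140000 * Real.log X ^ 5 * ((X : ℝ) * (((X : ℝ) / 2) ^ η) ^ (-(1 / 21) : ℝ) +
          (X : ℝ) ^ 2 / ((X : ℝ) / 2) ^ (1 + ε))
        ≤ 140000 * (L * (X : ℝ) ^ e) * ((2 ^ (η / 21) + 2 ^ (1 + ε)) * (X : ℝ) ^ s) := by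
          apply mul_le_mul _ hsum hsum0 (by positivity)
          exact mul_le_mul_of_nonneg_left hlog (by norm_num)
      _ = 140000 * L * (2 ^ (η / 21) + 2 ^ (1 + ε)) * (X : ℝ) ^ (s + e) := by
          rw [Real.rpow_add hX0]
          ring
      _ ≤ _ := by
          refine mul_le_mul_of_nonneg_right ?_ (by positivity)
          have : (0 : ℝ) ≤ X₁ * (X₁ : ℝ) ^ |s + e| := by positivity
          linarith
  · have hX1 : X ≤ X₁ := by omega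
    have h1 : {n : ℕ | ¬ Controlled ε η n ∧ X < 2 * n ∧ n ≤ X}.ncard ≤ X := by
      have hsub : {n : ℕ | ¬ Controlled ε η n ∧ X < 2 * n ∧ n ≤ X} ⊆ ((Finset.Icc 1 X : Finset ℕ) : Set ℕ) := by
        rintro n ⟨-, h2, h3⟩
        rw [Finset.mem_coe, Finset.mem_Icc]
        omega
      have := Set.ncard_le_ncard hsub (Finset.finite_toSet _)
      rwa [Set.ncard_coe_finset, Nat.card_Icc, Nat.add_sub_cancel] at this
    have h2 : (X : ℝ) ≤ X₁ := by exact_mod_cast hX1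
    have hX₁1 : (1 : ℝ) ≤ X₁ := hXR.trans h2
    have h3 : 1 ≤ (X₁ : ℝ) ^ |s + e| * (X : ℝ) ^ (s + e) := by
      have g1 : (X : ℝ) ^ (-|s + e|) ≤ (X : ℝ) ^ (s + e) :=
        Real.rpow_le_rpow_of_exponent_le hXR (neg_abs_le _)
      have g2 : (X : ℝ) ^ |s + e| ≤ (X₁ : ℝ) ^ |s + e| := Real.rpow_le_rpow hX0.le h2 (abs_nonneg _)
      calc (1 : ℝ) = (X : ℝ) ^ |s + e| * (X : ℝ) ^ (-|s + e|) := by
            rw [← Real.rpow_add hX0, add_neg_cancel, Real.rpow_zero]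
        _ ≤ _ := mul_le_mul g2 g1 (by positivity) (by positivity)
    calc ({n : ℕ | ¬ Controlled ε η n ∧ X < 2 * n ∧ n ≤ X}.ncard : ℝ) ≤ X := by exact_mod_cast h1
      _ ≤ X₁ * 1 := by rw [mul_one]; exact h2
      _ ≤ X₁ * ((X₁ : ℝ) ^ |s + e| * (X : ℝ) ^ (s + e)) := mul_le_mul_of_nonneg_left h3 (by positivity)
      _ = (X₁ * (X₁ : ℝ) ^ |s + e|) * (X : ℝ) ^ (s + e) := by ring
      _ ≤ _ := by
          refine mul_le_mul_of_nonneg_right ?_ (by positivity)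
          have : (0 : ℝ) ≤ 140000 * L * (2 ^ (η / 21) + 2 ^ (1 + ε)) := by positivity
          linarith

/-- the count of the integers which are not controlled -/
theorem count {ε η : ℝ} (hε : 0 < ε) (hη : 0 < η) {e : ℝ} (he : 0 < e) (hs : 0 < 1 - min ε (η / 21)) :
    ∃ C : ℝ, ∀ X : ℝ, 1 ≤ X → {t : ℕ | t ∈ {n : ℕ | 1 ≤ n ∧ ¬ Controlled ε η n} ∧ (t : ℝ) ≤ X}.Finite ∧
      ({t : ℕ | t ∈ {n : ℕ | 1 ≤ n ∧ ¬ Controlled ε η n} ∧ (t : ℝ) ≤ X}.ncard : ℝ) ≤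
        C * X ^ (1 - min ε (η / 21) + e) := by
  obtain ⟨C, hC, h⟩ := piece hε hη he
  obtain ⟨K, hK, h2⟩ := Pool.Agent.V11243.PD.dyadic (P := fun n => ¬ Controlled ε η n)
    (show 0 < 1 - min ε (η / 21) + e by linarith) hC h
  refine ⟨K, fun X hX => ?_⟩
  have h1 : 1 ≤ ⌊X⌋₊ := Nat.le_floor (by exact_mod_cast hX)
  have hset : {t : ℕ | t ∈ {n : ℕ | 1 ≤ n ∧ ¬ Controlled ε η n} ∧ (t : ℝ) ≤ X} =
      {t : ℕ | ¬ Controlled ε η t ∧ 1 ≤ t ∧ t ≤ ⌊X⌋₊} := by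
    ext t
    simp only [Set.mem_ofPred_eq]
    rw [Nat.le_floor_iff (by linarith)]
    tauto
  rw [hset]
  refine ⟨(Set.finite_Iic ⌊X⌋₊).subset fun t ht => ht.2.2, (h2 _ h1).trans (mul_le_mul_of_nonneg_left ?_ hK)⟩
  exact Real.rpow_le_rpow (Nat.cast_nonneg _) (Nat.floor_le (by linarith)) (by linarith)

theorem result (ε η : ℝ) (hε : 0 < ε) (hη : 0 < η) (hη1 : η ≤ 1) :
    (∀ (p : ℕ) [Fact p.Prime] (σ : ℝ), 0 < σ →
      ∃ E : Set ℤ_[p], dimH E ≤ ENNReal.ofReal ((1 - min ε (η / 21)) / σ) ∧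
        ∀ α ∉ E, ∃ T₀ : ℝ, ∀ T' ≥ T₀, ∀ n : ℕ, 1 ≤ n → (n : ℝ) ≤ T' → ‖(n : ℤ_[p]) - α‖ ≤ T' ^ (-σ) →
          Controlled ε η n) ∧
    (∀ (M : Type) [MetricSpace M] (φ : ℕ → M) (σ : ℝ), 0 < σ →
      ∃ E : Set M, dimH E ≤ ENNReal.ofReal ((1 - min ε (η / 21)) / σ) ∧
        ∀ z ∉ E, {n : ℕ | 1 ≤ n ∧ dist (φ n) z ≤ (n : ℝ) ^ (-σ) ∧ ¬ Controlled ε η n}.Finite) ∧
    (∀ (A : ℝ) (n : ℕ), 0 ≤ A → 1 ≤ n → Controlled ε η n →
      (∀ m k : ℕ, (m : ℝ) ≤ (n : ℝ) ^ η → ((T^[k] m : ℕ) : ℝ) ≤ A * (m : ℝ) ^ 2) →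
      ∀ k : ℕ, ((T^[k] n : ℕ) : ℝ) ≤ max ((n : ℝ) ^ (1 + ε)) (A * (n : ℝ) ^ (2 * η))) := by
  have hs : 0 < 1 - min ε (η / 21) := by
    have := min_le_right ε (η / 21)
    linarith
  refine ⟨fun p _ σ hσ => ?_, fun M _ φ σ hσ => ?_, fun A n hA hn ⟨m, h1, h2⟩ h3 k => ?_⟩
  · obtain ⟨E, h1, h2⟩ := Pool.Agent.H223.PS.padic_nat p (fun _ => {n : ℕ | 1 ≤ n ∧ ¬ Controlled ε η n}) hs.le
      (fun _ e he => count hε hη he hs) hσ
    refine ⟨E, h1, fun α hα => ?_⟩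
    obtain ⟨T₀, hT₀⟩ := h2 α hα 0
    refine ⟨T₀, fun T' hT n hn hnT hnα => ?_⟩
    by_contra hcon
    exact hT₀ T' hT n hnT hnα ⟨hn, hcon⟩
  · obtain ⟨E, h1, h2⟩ := Pool.Agent.H107.ME.dim_family φ (fun t : ℕ => max 1 (t : ℝ))
      (fun t => le_max_left _ _) hs.le hσ (fun _ : Unit => {n : ℕ | 1 ≤ n ∧ ¬ Controlled ε η n}) (fun _ e he => by
        obtain ⟨C, hC⟩ := count hε hη he hs
        refine ⟨C, fun X hX => ?_⟩
        obtain ⟨g1, g2⟩ := hC X hX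
        have hsub : {t : ℕ | t ∈ {n : ℕ | 1 ≤ n ∧ ¬ Controlled ε η n} ∧ max 1 (t : ℝ) ≤ X} ⊆
            {t : ℕ | t ∈ {n : ℕ | 1 ≤ n ∧ ¬ Controlled ε η n} ∧ (t : ℝ) ≤ X} := by
          rintro t ⟨a, b⟩
          exact ⟨a, (le_max_right _ _).trans b⟩
        exact ⟨g1.subset hsub, le_trans (Nat.cast_le.2 (Set.ncard_le_ncard hsub g1)) g2⟩)
    refine ⟨E, h1, fun z hz => (h2 z hz ()).subset ?_⟩
    rintro n ⟨a, b, c⟩
    refine ⟨⟨a, c⟩, ?_⟩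
    show dist (φ n) z ≤ (max 1 (n : ℝ)) ^ (-σ)
    rw [max_eq_right (by exact_mod_cast a)]
    exact b
  · rcases le_total k m with hk | hk
    · exact (h2 k hk).trans (le_max_left _ _)
    · have hn0 : (0 : ℝ) < n := by exact_mod_cast hn
      have e1 : T^[k] n = T^[k - m] (T^[m] n) := by
        rw [← Function.iterate_add_apply, Nat.sub_add_cancel hk]
      rw [e1]
      refine (h3 (T^[m] n) (k - m) h1).trans (le_trans ?_ (le_max_right _ _))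
      refine mul_le_mul_of_nonneg_left ?_ hA
      calc ((T^[m] n : ℕ) : ℝ) ^ 2 ≤ ((n : ℝ) ^ η) ^ 2 := pow_le_pow_left₀ (Nat.cast_nonneg _) h1 2
        _ = (n : ℝ) ^ (2 * η) := by
            rw [← Real.rpow_natCast, ← Real.rpow_mul hn0.le]
            congr 1
            push_cast
            ring

end Pool.Agent.Results.MP_0a5adf_nt.PadicClasses
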