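import Mathlib
import Pool.Agent.V11311.SL.G

set_option autoImplicit false

/-!
The limit law of the sum of the terms, and of their `p`-th powers, over a complete trajectory.
-/

namespace Pool.Agent.Results.MP_0a5adf_nt.PowerSums

open Filter Topology

/-- the `3x+1` function -/
def T (n : ℕ) : ℕ := if n % 2 = 0 then n / 2 else (3 * n + 1) / 2

/-- `t` is the total stopping time of `n` -/
def IsTotalStoppingTime (n t : ℕ) : Prop := T^[t] n = 1 ∧ ∀ j < t, T^[j] n ≠ 1

/-- the number of odd terms among `n, T n, ..., T^(k-1) n` -/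
def odds (k n : ℕ) : ℕ := ((Finset.range k).filter fun i => T^[i] n % 2 = 1).card

/-- the positive integers with the property `P` have the natural density `δ` -/
def HasDensity (P : ℕ → Prop) (δ : ℝ) : Prop :=
  Tendsto (fun N : ℕ => ({n : ℕ | 1 ≤ n ∧ n ≤ N ∧ P n}.ncard : ℝ) / N) atTop (𝓝 δ)

/-- `2 / log (4/3) * log n + x * log 3 * √(2 log n / (log (4/3))^3)` -/
noncomputable def bound (x : ℝ) (n : ℕ) : ℝ :=
  2 / Real.log (4 / 3) * Real.log n + x * (Real.log 3 * Real.sqrt (2 * Real.log n / Real.log (4 / 3) ^ 3))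

/-- The distribution function of the standard normal law. -/
noncomputable def Phi (x : ℝ) : ℝ :=
  ProbabilityTheory.cdf (ProbabilityTheory.gaussianReal 0 1) x

/-- the proportion of the `y < 2 ^ K` with `∑_{j ≤ K} (3 ^ odds j y / 2 ^ j) ^ p ≤ u` -/
noncomputable def walkLaw (p : ℝ) (K : ℕ) (u : ℝ) : ℝ :=
  ({y : ℕ | y < 2 ^ K ∧ ∑ j ∈ Finset.range (K + 1), ((3 : ℝ) ^ odds j y / 2 ^ j) ^ p ≤ u}.ncard : ℝ) / 2 ^ K

open Pool.Agent.V11311.RC Pool.Agent.V11311.FP Pool.Agent.V11311.SL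

theorem conv {P : ℕ → Prop} {δ : ℝ} (h : HasD P δ) : HasDensity P δ := by
  classical
  unfold HasDensity
  unfold HasD at h
  refine h.congr fun N => ?_
  congr 1
  unfold cN
  rw [← Set.ncard_coe_finset]
  congr 2
  ext n
  rw [Finset.mem_coe, Finset.mem_filter, Finset.mem_Icc]
  constructor
  · rintro ⟨⟨h1, h2⟩, h3⟩; exact ⟨h1, h2, h3⟩
  · rintro ⟨h1, h2, h3⟩; exact ⟨⟨h1, h2⟩, h3⟩

theorem odds_eq (k n : ℕ) : odds k n = Pool.Agent.Helper894.Collatz.od k n := by
  induction k with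
  | zero => simp [odds, Pool.Agent.Helper894.Collatz.od]
  | succ k ih =>
    rw [Pool.Agent.Helper894.Collatz.od_succ, ← ih]
    unfold odds
    rw [Finset.range_add_one, Finset.filter_insert]
    have e : Pool.Agent.Helper894.Collatz.T^[k] n = T^[k] n := rfl
    rw [e]
    split_ifs with h
    · rw [Finset.card_insert_of_notMem (by simp), h]
    · rw [show T^[k] n % 2 = 0 by omega, add_zero]

theorem walk_eq (p : ℝ) (K : ℕ) (u : ℝ) : walkLaw p K u = FK p K u := by
  classical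
  unfold walkLaw FK
  rw [prq_eq]
  push_cast
  congr 2
  rw [← Set.ncard_coe_finset]
  congr 1
  ext y
  rw [Finset.mem_coe, Finset.mem_filter, Finset.mem_range, Set.mem_ofPred_eq]
  unfold wp
  simp only [odds_eq]

/-- **The law of the sums along complete trajectories.** The positive integers which reach `1` have a density
`δ > 0`, and `δ = 1` if and only if all positive integers reach `1`. For every `p > 0` there is a continuous
distribution function `F`, the law of `∑_{j ≥ 0} (3 ^ (heads among the first j) / 2 ^ j) ^ p` for an infinite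
sequence of tosses of a fair coin, with `F u = F ((u - 1) 2 ^ p) / 2 + F ((u - 1) (2/3) ^ p) / 2`, such that for
all real `u` and `x` the positive integers `n` which reach `1` after at most `bound x n` steps and satisfy
`∑ m ^ p ≤ u n ^ p`, the sum over all the terms `m` of the trajectory of `n` up to the first `1`, have the
density `δ * Phi x * F u`. -/
theorem result : ∃ δ : ℝ, 0 < δ ∧ δ ≤ 1 ∧ (δ = 1 ↔ ∀ n : ℕ, 1 ≤ n → ∃ k, T^[k] n = 1) ∧
    HasDensity (fun n => ∃ k, T^[k] n = 1) δ ∧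
    ∀ p : ℝ, 0 < p → ∃ F : ℝ → ℝ, Continuous F ∧ Monotone F ∧ (∀ u < 1, F u = 0) ∧ Tendsto F atTop (𝓝 1) ∧
      (∀ u, F u = 1 / 2 * F ((u - 1) * 2 ^ p) + 1 / 2 * F ((u - 1) * (2 / 3) ^ p)) ∧
      (∀ u, Tendsto (fun K : ℕ => walkLaw p K u) atTop (𝓝 (F u))) ∧
      ∀ u x : ℝ, HasDensity (fun n => ∃ t : ℕ, IsTotalStoppingTime n t ∧ (t : ℝ) ≤ bound x n ∧
        ∑ j ∈ Finset.range (t + 1), (T^[j] n : ℝ) ^ p ≤ u * (n : ℝ) ^ p) (δ * Phi x * F u) := by
  obtain ⟨δ, h0, h1, h2, h3, h4⟩ := Pool.Agent.H499R2.HL.law_class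
  refine ⟨δ, h0, h1, h2, h3, fun p hp => ⟨FF p, FF_cont p hp, FF_mono p, FF_zero p, FF_top p hp, FF_eq p,
    fun u => (FF_lim p u).congr fun K => (walk_eq p K u).symm, fun u x => ?_⟩⟩
  have hPhi : Pool.Agent.H499R2.ND.Phi x = Phi x := Pool.Agent.H499R2.ND.phi_cdf x
  have hcl : ∀ x : ℝ, ∀ Q : ℕ, 0 < Q → ∀ A : ℕ → Prop, Per Q A →
      HasD (fun n => A n ∧ Ev x n) (δ * Pool.Agent.H499R2.ND.Phi x * prq Q A) := by
    intro x Q hQ A hA
    apply class_sum hQ hA
    intro r hr
    have h5 := hasD_Dn (h4 1 0 0 le_rfl Q r hQ x)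
    rw [Nat.cast_one, one_pow, div_one] at h5
    refine HasD.congr h5 fun n _ => ?_
    rw [pev_iff, Nat.mod_eq_of_lt hr]
  have h6 := sum_law h0.le h1 hcl hp u x (by rw [hPhi]; exact ProbabilityTheory.cdf_nonneg _ _)
    (by rw [hPhi]; exact ProbabilityTheory.cdf_le_one _ _)
  rw [hPhi] at h6
  exact conv h6

end Pool.Agent.Results.MP_0a5adf_nt.PowerSums
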