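import Pool.Agent.V11201.SH.P4

set_option autoImplicit false

/-! Large maximum excursions in short intervals: for almost all `n` and at all scales `H` up to a power
of `n`, almost all integers of `(n, n + H]` have the maximum excursion `t(n)`, or all these excursions are
at most `n ^ (1 + κ)`. -/

namespace Pool.Agent.Results.MP_0a5adf_nt.ShortIntervals

open Filter Topology

/-- the accelerated `3x+1` map -/
def T (n : ℕ) : ℕ := if n % 2 = 0 then n / 2 else (3 * n + 1) / 2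

/-- the maximum excursion `t(n)`, in `ℕ ∪ {∞}` -/
noncomputable def t (n : ℕ) : ℕ∞ := ⨆ k : ℕ, ((T^[k] n : ℕ) : ℕ∞)

/-- `t(n) ≤ v`: all terms of the trajectory are at most `v` -/
def AtMost (v : ℝ) (n : ℕ) : Prop := ∀ k : ℕ, ((T^[k] n : ℕ) : ℝ) ≤ v

/-- `t(m) = t(n)`, or both are at most `v` -/
def Near (v : ℝ) (n m : ℕ) : Prop := t m = t n ∨ (AtMost v n ∧ AtMost v m)

/-- the number of the `1 ≤ j ≤ H` for which `n + j` is not near `n`: `t(n + j) ≠ t(n)` and one of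
`t(n)`, `t(n + j)` is above `v` -/
noncomputable def stray (v : ℝ) (n H : ℕ) : ℕ := {j : ℕ | 1 ≤ j ∧ j ≤ H ∧ ¬ Near v n (n + j)}.ncard

/-- `t(n) > C n ^ 2`: some term of the trajectory is above `C n ^ 2` -/
def Exceptional (C : ℝ) (n : ℕ) : Prop := ∃ k : ℕ, C * (n : ℝ) ^ 2 < ((T^[k] n : ℕ) : ℝ)

/-- the number of the `1 ≤ j ≤ H` with `t(n + j) = t(n)` -/
noncomputable def same (n H : ℕ) : ℕ := {j : ℕ | 1 ≤ j ∧ j ≤ H ∧ t (n + j) = t n}.ncard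

/-- the number of the exceptions among `n + 1, ..., n + H` -/
noncomputable def exceptions (C : ℝ) (n H : ℕ) : ℕ := {j : ℕ | 1 ≤ j ∧ j ≤ H ∧ Exceptional C (n + j)}.ncard

/-- the positive integers with the property `P` have the natural density `δ` -/
def HasDensity (P : ℕ → Prop) (δ : ℝ) : Prop :=
  Tendsto (fun N : ℕ => ({n : ℕ | 1 ≤ n ∧ n ≤ N ∧ P n}.ncard : ℝ) / N) atTop (𝓝 δ)

/-- `g n = n ^ o(1)`: `log (1 + g n) / log n` tends to `0` -/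
def SubPower (g : ℕ → ℕ) : Prop := Tendsto (fun n : ℕ => Real.log (1 + g n) / Real.log n) atTop (𝓝 0)

/-- `S` is spread: for every `ε` some `c > 0` works for every `θ > 0` and infinitely many `N`: with
`H = ⌊N ^ θ⌋`, for all but `ε N` of the `n ≤ N` at least `c H` of the integers `n + 1, ..., n + H` are in
`S`. -/
def Spread (S : Set ℕ) : Prop :=
  ∀ ε : ℝ, 0 < ε → ∃ c : ℝ, 0 < c ∧ ∀ θ : ℝ, 0 < θ → ∃ᶠ N : ℕ in atTop,
    ({n : ℕ | 1 ≤ n ∧ n ≤ N ∧ (({j : ℕ | 1 ≤ j ∧ j ≤ ⌊(N : ℝ) ^ θ⌋₊ ∧ n + j ∈ S}.ncard : ℕ) : ℝ) <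
      c * ⌊(N : ℝ) ^ θ⌋₊}.ncard : ℝ) ≤ ε * N

open Pool.Agent.V11201.SH in
/-- MAXIMUM EXCURSIONS IN SHORT INTERVALS.
(1) For at most `(A / δ) √((1 + log (1 + H)) log log N / log N) N` of the `n ≤ N` more than `δ H` of the
`j ≤ H` have `t(n + j) ≠ t(n)` and one of the two above `3 N ^ 1.3`.
(2) For all `ε, κ > 0` there is `θ > 0` such that for large `N`, for all but `ε N` of the `n ≤ N` and for
ALL `1 ≤ H ≤ N ^ θ`, all but `ε H` of the `j ≤ H` have `t(n + j) = t(n)`, or `t(n), t(n + j) ≤ N ^ (1 + κ)`.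
(3) Let `g n = n ^ o(1)`. For almost all `n` and all `1 ≤ H ≤ g n`, all but `ε H` of the `j ≤ H` have
`t(n + j) = t(n)`, or `t(n), t(n + j) ≤ n ^ (1 + κ)`.
(4) Let `C > 0`. For almost all `n` and all `1 ≤ H ≤ g n`: if `t(n) > C n ^ 2`, all but `ε H` of the
`j ≤ H` have `t(n + j) = t(n)`; if `t(n) ≤ C n ^ 2`, at most `ε H` of the integers `m = n + j` have
`t(m) > C m ^ 2`.
(5) Let `S` be a spread set and `t(m) ≤ C m ^ 2` for all `m ∈ S`. Then `t(n)` is finite for all `n`, and for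
`C' > C` the `n` with `t(n) > C' n ^ 2` have lower density zero. -/
theorem result :
    (∃ A : ℝ, 0 < A ∧ ∀ N : ℕ, 16 ≤ N → ∀ (H : ℕ) (δ : ℝ), 0 < δ →
      ({n : ℕ | 1 ≤ n ∧ n ≤ N ∧ δ * H < stray (3 * (N : ℝ) ^ (13 / 10 : ℝ)) n H}.ncard : ℝ) ≤
        A / δ * √ ((1 + Real.log (1 + H)) * (Real.log (Real.log N) / Real.log N)) * N) ∧
    (∀ ε κ : ℝ, 0 < ε → 0 < κ → ∃ θ : ℝ, 0 < θ ∧ ∃ N₀ : ℕ, ∀ N ≥ N₀,
      ({n : ℕ | 1 ≤ n ∧ n ≤ N ∧ ¬ ∀ H : ℕ, 1 ≤ H → (H : ℝ) ≤ (N : ℝ) ^ θ →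
        (stray ((N : ℝ) ^ (1 + κ)) n H : ℝ) ≤ ε * H}.ncard : ℝ) ≤ ε * N) ∧
    (∀ g : ℕ → ℕ, SubPower g → ∀ ε κ : ℝ, 0 < ε → 0 < κ →
      HasDensity (fun n => ∀ H : ℕ, 1 ≤ H → H ≤ g n → (stray ((n : ℝ) ^ (1 + κ)) n H : ℝ) ≤ ε * H) 1) ∧
    (∀ g : ℕ → ℕ, SubPower g → ∀ ε C : ℝ, 0 < ε → 0 < C →
      HasDensity (fun n => ∀ H : ℕ, 1 ≤ H → H ≤ g n → (Exceptional C n → (1 - ε) * H ≤ same n H) ∧
        (¬ Exceptional C n → (exceptions C n H : ℝ) ≤ ε * H)) 1) ∧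
    (∀ S : Set ℕ, Spread S → ∀ C : ℝ, 0 ≤ C → (∀ m ∈ S, ¬ Exceptional C m) →
      (∀ n : ℕ, t n ≠ ⊤) ∧ ∀ C' : ℝ, C < C' → ∀ ε : ℝ, 0 < ε → ∃ᶠ N : ℕ in atTop,
        ({n : ℕ | 1 ≤ n ∧ n ≤ N ∧ Exceptional C' n}.ncard : ℝ) ≤ ε * N) := by
  refine ⟨Exc.near_rate, fun ε κ hε hκ => ?_, fun g hg ε κ hε hκ => Exc.near_dens hκ hg hε,
    fun g hg ε C hε hC => Exc.exc_steady hC hg hε, fun S hS C hC h =>
      ⟨Exc.spread_bounded hS (fun m hm => ⟨_, Exc.not_exc.1 (h m hm)⟩),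
        fun C' hCC ε hε => Exc.spread_exc hS hC hCC h hε⟩⟩
  obtain ⟨θ, hθ, N0, h⟩ := Exc.near_max hκ hε
  refine ⟨θ, hθ, N0, fun N hN => le_trans ?_ (h N hN)⟩
  exact_mod_cast Set.ncard_le_ncard (by
    rintro n ⟨a1, a2, a3⟩
    push Not at a3
    obtain ⟨H, b1, b2, b3⟩ := a3
    exact ⟨a1, a2, H, b1, b2, b3⟩) (fin_le _ N)

end Pool.Agent.Results.MP_0a5adf_nt.ShortIntervals
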